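import Mathlib
import Pool.Agent.H148R3.HR6

/-!
# The Haar system is 1-greedy for an equivalent norm of `L_p[0,1]`, `1 < p < ∞`

All definitions used in the statement (`leb`, `haarFn`, `haarSeq`, `haar`, `IsExpansion`,
`IsEquivNorm`, `IsGreedySet`, `sigma`, `IsGreedyBasis`) are in `Pool/Agent/H148R3/OGDefs.lean`.
It also contains the fact that the Haar system is a Schauder basis of `L_p[0,1]`.

Outline of the proof.  For a finitely supported `g ≥ 0` let `e_g(t) = ∑ (g_i - t)^+`.  We take the
family of all `h = v + u` with disjointly supported `v, u ≥ 0`, `v ≤ g`, `|v|_1 + |u|_1 ≤ |g|_1`,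
`|u|_1 ≤ 4 e_g(max v)`, and `e_u(4t) + |u|_1 ≤ 8 e_g(t)` whenever `t > 0` and `e_u(4t) > 0`.
This family is invariant under the move of mass from a set `A` to a disjoint set `B` of the same
size that the 1-greedy property needs (an intermediate value argument chooses the levels at which
`v` and `u` are cut).  The new norm of `f` is the supremum of `∑ h_i |a_i(f)|` over all `h`
attached to the moduli `g` of coefficient sequences of the unit ball of the span of the Haar
functions in `L_q`; it is bounded because the Haar systems of `L_p` and `L_q` are unconditional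
(proved here by a Bellman function argument) with democracy functions of order `m^{1/p}` and
`m^{1/q}`.
-/

set_option autoImplicit false

open MeasureTheory
open scoped ENNReal

namespace Pool.Agent.Results.MP_3d1733_an.OneGreedy

open Pool.Agent.H148R3.OG

/-- For every `1 < p < ∞` (and real or complex scalars) there is a norm on `L_p[0,1]`, equivalent to
the usual one, with respect to which the Haar system is `1`-greedy. -/
theorem result (𝕜 : Type*) [RCLike 𝕜] (p : ℝ≥0∞) [Fact (1 ≤ p)] (hp : 1 < p) (hp' : p ≠ ∞) :
    ∃ N : Lp 𝕜 p leb → ℝ, IsEquivNorm 𝕜 N ∧ IsGreedyBasis 𝕜 (haar 𝕜 p) N 1 :=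
  Pool.Agent.H148R3.HR.main hp hp'

end Pool.Agent.Results.MP_3d1733_an.OneGreedy
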